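import Mathlib

/-!
Definitions for stability in permutations (MP_94dfa5_al): asymptotic homomorphisms as sequences of
maps into finite symmetric groups, stability, and flexible stability.
-/

namespace Pool.Agent.Helper57.SP

open Filter Topology

/-- The normalised Hamming distance on `Sym(k)`: the number of points at which `σ` and `τ` differ,
divided by `k`. -/
noncomputable def hdist {k : ℕ} (σ τ : Equiv.Perm (Fin k)) : ℝ :=
  ((Finset.univ.filter (fun i : Fin k => σ i ≠ τ i)).card : ℝ) / (k : ℝ)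

/-- The maps `φ n : Γ → Sym(k n)` form an asymptotic homomorphism: for all `g`, `h` in `Γ` the
distance of `φ n (g * h)` and `φ n g * φ n h` tends to `0`. -/
def IsAsymptoticHom {Γ : Type} [Group Γ] (k : ℕ → ℕ)
    (φ : ∀ n : ℕ, Γ → Equiv.Perm (Fin (k n))) : Prop :=
  ∀ g h : Γ, Tendsto (fun n => hdist (φ n (g * h)) (φ n g * φ n h)) atTop (𝓝 0)

/-- `Γ` is stable in permutations: every asymptotic homomorphism `φ n : Γ → Sym(k n)`, `k n ≥ 1`, is
at distance tending to `0`, at every element of `Γ`, from homomorphisms `ψ n : Γ → Sym(k n)`. -/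
def StableInPermutations (Γ : Type) [Group Γ] : Prop :=
  ∀ k : ℕ → ℕ, (∀ n, 1 ≤ k n) → ∀ φ : (∀ n : ℕ, Γ → Equiv.Perm (Fin (k n))),
    IsAsymptoticHom k φ →
      ∃ ψ : ∀ n : ℕ, Γ →* Equiv.Perm (Fin (k n)),
        ∀ g : Γ, Tendsto (fun n => hdist (φ n g) (ψ n g)) atTop (𝓝 0)

/-- `Γ` is flexibly stable: the same, except that the homomorphism `ψ n` may take values in a larger
symmetric group `Sym(N n)`, with `k n ≤ N n` and `N n / k n → 1`, and is compared with `φ n` on the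
first `k n` points. -/
def FlexiblyStable (Γ : Type) [Group Γ] : Prop :=
  ∀ k : ℕ → ℕ, (∀ n, 1 ≤ k n) → ∀ φ : (∀ n : ℕ, Γ → Equiv.Perm (Fin (k n))),
    IsAsymptoticHom k φ →
      ∃ (N : ℕ → ℕ) (hN : ∀ n, k n ≤ N n) (ψ : ∀ n : ℕ, Γ →* Equiv.Perm (Fin (N n))),
        Tendsto (fun n => (N n : ℝ) / (k n : ℝ)) atTop (𝓝 1) ∧
        ∀ g : Γ, Tendsto (fun n => ((Finset.univ.filter (fun i : Fin (k n) =>
          ψ n g (Fin.castLE (hN n) i) ≠ Fin.castLE (hN n) (φ n g i))).card : ℝ) / (k n : ℝ))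
            atTop (𝓝 0)

/-- The countable abelian group `Z/2 ⊕ ⨁ₙ (Z/2^(n+1) ⊕ Z/2)` (`n ≥ 0`), written multiplicatively. -/
abbrev Base : Type := Multiplicative (ZMod 2 × (Π₀ n : ℕ, ZMod (2 ^ (n + 1)) × ZMod 2))

end Pool.Agent.Helper57.SP
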